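import Mathlib
import Pool.Agent.Helper325.BorsukUlam

/-!
# Identity components of homeomorphism groups need not be topologically finitely generated

There is a compact metric space `A` such that the arc component of the identity in the group
`T(A)` of all homeomorphisms of `A` has no finite basis.

The space `A` is the total space of a family of intervals over the quotient `Q/±1` of the cube
`Q = [-1,1]^ℕ` (the fibre over `±x` is `{τ x : |τ| ≤ 1}`, a point when `x = 0`), together with a
sequence of isolated intervals which accumulates on all of it.  The isolated fibres are open and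
closed, so the identity component preserves every one of them, and by density every fibre.  For
finitely many elements of the identity component the displacements of the zero section are odd
real functions, so by the Borsuk-Ulam theorem some point of the zero section is fixed by all of
them; but no such point is fixed by the whole arc component.
-/

set_option autoImplicit false

namespace Pool.Agent.Results.MP_f4f44f_al.NoFiniteBasis

open Set Topology

/-- The group `T(A)` of all homeomorphisms of the compact metric space `A`, under composition. -/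
def T (A : Type) [MetricSpace A] [CompactSpace A] : Type := A ≃ₜ A

section General

variable {A : Type} [MetricSpace A] [CompactSpace A]

noncomputable instance : Group (T A) := inferInstanceAs (Group (A ≃ₜ A))

instance : FunLike (T A) A A where
  coe f := (Homeomorph.toEquiv f : A → A)
  coe_injective f g h := by
    have : (f : A ≃ₜ A) = g := Homeomorph.ext fun x => congrFun h x
    exact this

/-- A homeomorphism as a continuous map. -/
def toC (f : T A) : C(A, A) := ⟨f, Homeomorph.continuous (f : A ≃ₜ A)⟩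

lemma toC_injective : Function.Injective (toC (A := A)) := by
  intro f g h
  apply DFunLike.ext
  intro x
  exact congrArg (fun F : C(A, A) => F x) h

/-- The topology of uniform convergence on `T(A)`, as a metric; `dist_T` below identifies the
distance with `sup_p d(f p, g p)`. -/
noncomputable instance : MetricSpace (T A) :=
  MetricSpace.induced toC toC_injective inferInstance

lemma dist_T (f g : T A) : dist f g = ⨆ p : A, dist (f p) (g p) :=
  ContinuousMap.dist_eq_iSup (f := toC f) (g := toC g)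

lemma mul_apply (f g : T A) (p : A) : (f * g) p = f (g p) := rfl

lemma one_apply (p : A) : (1 : T A) p = p := rfl

end General

/-- The arc component of the identity of a topological group: the identity together with all `g`
such that some arc (homeomorphic image of `[0,1]`) joins the identity to `g`. -/
def arcComponent (G : Type) [Group G] [TopologicalSpace G] : Set G :=
  {g | g = 1 ∨ ∃ γ : Icc (0 : ℝ) 1 → G, IsEmbedding γ ∧ γ 0 = 1 ∧ γ 1 = g}

/-- `Φ` has a finite basis: finitely many elements of `Φ` generate a subgroup which is dense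
in `Φ`. -/
def HasFiniteBasis {G : Type} [Group G] [TopologicalSpace G] (Φ : Set G) : Prop :=
  ∃ s : Finset G, (s : Set G) ⊆ Φ ∧ Φ ⊆ closure (Subgroup.closure (s : Set G) : Set G)

/-! ### The space -/

/-- The cube `[-1,1]^ℕ`. -/
def Q : Set (ℕ → ℝ) := Set.pi univ fun _ => Icc (-1 : ℝ) 1

/-- The levels `0, 1, 1/2, 1/3, ...`. -/
def S : Set ℝ := insert 0 (range fun k : ℕ => 1 / ((k : ℝ) + 1))

/-- An interval around `1/(k+1)` that contains no other level. -/
def U (k : ℕ) : Set ℝ := {s | 1 / ((k : ℝ) + 2) < s ∧ s * k < 1}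

lemma zero_not_mem_U (k : ℕ) : (0 : ℝ) ∉ U k := by
  rintro ⟨h, -⟩
  have : (0 : ℝ) < 1 / ((k : ℝ) + 2) := by positivity
  linarith

lemma level_mem_U {k m : ℕ} : 1 / ((m : ℝ) + 1) ∈ U k ↔ m = k := by
  constructor
  · rintro ⟨h1, h2⟩
    have h3 : (m : ℝ) + 1 < k + 2 := by
      rwa [one_div_lt_one_div (by positivity) (by positivity)] at h1
    have h4 : (k : ℝ) < m + 1 := by
      rw [div_mul_eq_mul_div, one_mul, div_lt_one (by positivity)] at h2
      exact h2
    have h5 : m + 1 < k + 2 := by exact_mod_cast h3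
    have h6 : k < m + 1 := by exact_mod_cast h4
    omega
  · rintro rfl
    refine ⟨?_, ?_⟩
    · rw [one_div_lt_one_div (by positivity) (by positivity)]
      linarith
    · rw [div_mul_eq_mul_div, one_mul, div_lt_one (by positivity)]
      linarith

lemma isOpen_U (k : ℕ) : IsOpen (U k) :=
  (isOpen_lt continuous_const continuous_id).inter
    (isOpen_lt (continuous_id.mul continuous_const) continuous_const)

lemma isCompact_S : IsCompact S :=
  (tendsto_one_div_add_atTop_nhds_zero_nat (𝕜 := ℝ)).isCompact_insert_range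

lemma countable_S : S.Countable := (countable_range _).insert 0

lemma isCompact_Q : IsCompact Q := isCompact_univ_pi fun _ => isCompact_Icc

instance : Nonempty Q := ⟨⟨0, fun _ _ => by simp⟩⟩

/-- A sequence of points of the cube in which every term of a dense sequence is repeated
infinitely often. -/
noncomputable def q (k : ℕ) : ℕ → ℝ := (TopologicalSpace.denseSeq Q (Nat.unpair k).1 : Q)

lemma q_mem (k : ℕ) : q k ∈ Q := (TopologicalSpace.denseSeq Q (Nat.unpair k).1).2

/-- The parameter space: level, point of the cube, position in the fibre. -/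
def At : Set (ℝ × (ℕ → ℝ) × ℝ) :=
  {a | a.1 ∈ S ∧ a.2.1 ∈ Q ∧ a.2.2 ∈ Icc (-1 : ℝ) 1 ∧ ∀ k, a.1 ∉ U k ∨ a.2.1 = q k}

lemma isCompact_At : IsCompact At := by
  have h : At = (S ×ˢ (Q ×ˢ Icc (-1 : ℝ) 1)) ∩ {a | ∀ k, a.1 ∉ U k ∨ a.2.1 = q k} := by
    ext a
    simp only [At, mem_inter_iff, mem_prod, mem_ofPred_eq]
    tauto
  rw [h]
  refine (isCompact_S.prod (isCompact_Q.prod isCompact_Icc)).inter_right ?_
  have h2 : {a : ℝ × (ℕ → ℝ) × ℝ | ∀ k, a.1 ∉ U k ∨ a.2.1 = q k}
      = ⋂ k, ({a | a.1 ∉ U k} ∪ {a | a.2.1 = q k}) := by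
    ext a
    simp
  rw [h2]
  refine isClosed_iInter fun k => IsClosed.union ?_ ?_
  · exact (isOpen_U k).isClosed_compl.preimage continuous_fst
  · exact isClosed_eq (by fun_prop) continuous_const

/-- The ambient space. -/
abbrev W : Type := ℝ × (ℕ → ℕ → ℝ) × (ℕ → ℝ)

/-- The parametrisation. -/
def Ph (a : ℝ × (ℕ → ℝ) × ℝ) : W := (a.1, fun i j => a.2.1 i * a.2.1 j, fun i => a.2.2 * a.2.1 i)

lemma continuous_Ph : Continuous Ph := by
  unfold Ph
  fun_prop

/-- The underlying set of the example. -/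
def AS : Set W := Ph '' At

lemma isCompact_AS : IsCompact AS := isCompact_At.image continuous_Ph

/-- The example. -/
def X : Type := AS

instance : TopologicalSpace X := inferInstanceAs (TopologicalSpace AS)

instance : TopologicalSpace.MetrizableSpace X :=
  inferInstanceAs (TopologicalSpace.MetrizableSpace AS)

noncomputable instance : MetricSpace X := TopologicalSpace.metrizableSpaceMetric X

instance : CompactSpace X := isCompact_iff_compactSpace.mp isCompact_AS


lemma X_ext {a b : X} (h : a.1 = b.1) : a = b := Subtype.ext h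

/-- The level of a point. -/
def lev (a : X) : ℝ := a.1.1

/-- The base coordinate of a point: the matrix `x_i x_j`. -/
def mat (a : X) : ℕ → ℕ → ℝ := a.1.2.1

/-- The fibre coordinate of a point: the vector `τ x`. -/
def vec (a : X) : ℕ → ℝ := a.1.2.2

lemma continuous_val : Continuous (fun a : X => a.1) := continuous_subtype_val

lemma continuous_lev : Continuous lev := continuous_fst.comp continuous_val

lemma continuous_mat : Continuous mat := continuous_fst.comp (continuous_snd.comp continuous_val)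

lemma continuous_vec : Continuous vec := continuous_snd.comp (continuous_snd.comp continuous_val)

lemma X_ext' {a b : X} (h1 : lev a = lev b) (h2 : mat a = mat b) (h3 : vec a = vec b) : a = b :=
  X_ext (Prod.ext h1 (Prod.ext h2 h3))

/-- The point of `X` with given parameters. -/
def pt (a : ℝ × (ℕ → ℝ) × ℝ) (ha : a ∈ At) : X := ⟨Ph a, mem_image_of_mem _ ha⟩

lemma exists_pt (a : X) : ∃ (s : ℝ) (x : ℕ → ℝ) (τ : ℝ) (h : (s, x, τ) ∈ At),
    a = pt (s, x, τ) h := by
  obtain ⟨⟨s, x, τ⟩, h, h'⟩ := a.2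
  exact ⟨s, x, τ, h, X_ext h'.symm⟩

/-- If `x_i x_j = y_i y_j` for all `i`, `j` then `y = ± x`. -/
lemma eq_or_neg {x y : ℕ → ℝ} (h : ∀ i j, y i * y j = x i * x j) : y = x ∨ y = -x := by
  by_cases hx : ∃ i, x i ≠ 0
  · obtain ⟨i, hi⟩ := hx
    have h1 : y i * y i = x i * x i := h i i
    have hyi : y i ≠ 0 := by
      intro h0
      rw [h0, zero_mul] at h1
      exact hi (mul_self_eq_zero.mp h1.symm)
    rcases mul_self_eq_mul_self_iff.mp h1 with h2 | h2
    · left
      funext j
      have := h i j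
      rw [h2] at this
      exact mul_left_cancel₀ hi this
    · right
      funext j
      have := h i j
      rw [h2] at this
      have h3 : x i * (-y j) = x i * x j := by linarith
      have := mul_left_cancel₀ hi h3
      simp only [Pi.neg_apply]
      linarith
  · push Not at hx
    left
    funext j
    have := h j j
    rw [hx j, mul_zero] at this
    rw [mul_self_eq_zero.mp this, hx j]

/-- All points over the same base point lie in the fibre `{τ x : |τ| ≤ 1}`. -/
lemma fibre (a : X) {x : ℕ → ℝ} (h : mat a = fun i j => x i * x j) :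
    ∃ τ ∈ Icc (-1 : ℝ) 1, vec a = fun i => τ * x i := by
  obtain ⟨s, y, τ, hA, rfl⟩ := exists_pt a
  have h1 : ∀ i j, y i * y j = x i * x j := fun i j => congrFun (congrFun h i) j
  rcases eq_or_neg h1 with rfl | rfl
  · exact ⟨τ, hA.2.2.1, rfl⟩
  · refine ⟨-τ, ⟨by have := hA.2.2.1.2; linarith, by have := hA.2.2.1.1; linarith⟩, ?_⟩
    funext i
    simp [pt, Ph, vec]

/-! ### Elements of the identity component preserve all fibres -/

lemma continuous_eval (a : X) : Continuous fun g : T X => g a := by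
  have h1 : Continuous (toC : T X → C(X, X)) := continuous_induced_dom
  exact (continuous_eval_const (F := C(X, X)) a).comp h1

lemma lev_eq {g : T X} (hg : g ∈ connectedComponent (1 : T X)) (a : X) : lev (g a) = lev a := by
  have h1 : IsPreconnected ((fun g : T X => lev (g a)) '' connectedComponent (1 : T X)) :=
    isPreconnected_connectedComponent.image _
      (continuous_lev.comp (continuous_eval a)).continuousOn
  have h2 : (fun g : T X => lev (g a)) '' connectedComponent (1 : T X) ⊆ S := by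
    rintro _ ⟨g, -, rfl⟩
    obtain ⟨s, x, τ, hA, h⟩ := exists_pt (g a)
    simp only [h]
    exact hA.1
  exact countable_S.isTotallyDisconnected _ h2 h1 ⟨g, hg, rfl⟩ ⟨1, mem_connectedComponent, rfl⟩

lemma mat_eq_of_lev {a b : X} {k : ℕ} (ha : lev a = 1 / ((k : ℝ) + 1)) (h : lev b = lev a) :
    mat b = mat a := by
  obtain ⟨s, x, τ, hA, rfl⟩ := exists_pt a
  obtain ⟨s', x', τ', hA', rfl⟩ := exists_pt b
  have ha' : s = 1 / ((k : ℝ) + 1) := ha
  have hb' : s' = 1 / ((k : ℝ) + 1) := h.trans ha
  have h1 : x = q k := (hA.2.2.2 k).resolve_left fun h => h (by rw [ha']; exact level_mem_U.mpr rfl)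
  have h2 : x' = q k :=
    (hA'.2.2.2 k).resolve_left fun h => h (by rw [hb']; exact level_mem_U.mpr rfl)
  subst h1 h2
  rfl

lemma mem_At_level {k : ℕ} {τ : ℝ} (hτ : τ ∈ Icc (-1 : ℝ) 1) :
    ((1 / ((k : ℝ) + 1), q k, τ) : ℝ × (ℕ → ℝ) × ℝ) ∈ At := by
  refine ⟨Or.inr ⟨k, rfl⟩, q_mem k, hτ, fun m => ?_⟩
  by_cases h : k = m
  · right; rw [h]
  · left; rw [level_mem_U]; exact h

lemma mem_At_zero {x : ℕ → ℝ} {τ : ℝ} (hx : x ∈ Q) (hτ : τ ∈ Icc (-1 : ℝ) 1) :
    ((0, x, τ) : ℝ × (ℕ → ℝ) × ℝ) ∈ At :=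
  ⟨Or.inl rfl, hx, hτ, fun k => Or.inl (zero_not_mem_U k)⟩

lemma mat_eq {g : T X} (hg : g ∈ connectedComponent (1 : T X)) (a : X) : mat (g a) = mat a := by
  obtain ⟨s, x, τ, hA, ha⟩ := exists_pt a
  rcases hA.1 with hs | ⟨k, hk⟩
  · -- limit fibres
    simp only at hs
    subst hs
    have hcl : IsClosed {a : X | mat (g a) = mat a} := by
      have hg' : Continuous (fun a : X => g a) := (toC g).continuous
      exact isClosed_eq (continuous_mat.comp hg') continuous_mat
    -- the point is a limit of points of isolated fibres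
    have hx : x ∈ Q := hA.2.1
    have hτ : τ ∈ Icc (-1 : ℝ) 1 := hA.2.2.1
    have hdense : ∀ V ∈ 𝓝 a, ∃ b ∈ V, mat (g b) = mat b := by
      intro V hV
      -- pull back along the parametrisation
      have hV1 : ∃ V1 : Set W, V1 ∈ 𝓝 (Ph (0, x, τ)) ∧ ∀ b : X, b.1 ∈ V1 → b ∈ V := by
        have : 𝓝 a = Filter.comap (fun b : X => b.1) (𝓝 a.1) :=
          nhds_subtype_eq_comap (X := W)
        rw [this] at hV
        obtain ⟨V1, h1, h2⟩ := hV
        rw [ha] at h1
        exact ⟨V1, h1, fun b hb => h2 hb⟩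
      obtain ⟨V1, hV1, hV2⟩ := hV1
      have hc : Continuous fun p : ℝ × (ℕ → ℝ) => Ph (p.1, p.2, τ) := by
        unfold Ph
        fun_prop
      have h3 : (fun p : ℝ × (ℕ → ℝ) => Ph (p.1, p.2, τ)) ⁻¹' V1 ∈ 𝓝 ((0 : ℝ), x) :=
        hc.continuousAt.preimage_mem_nhds hV1
      rw [nhds_prod_eq, Filter.mem_prod_iff] at h3
      obtain ⟨V3, hV3, V4, hV4, hsub⟩ := h3
      -- a term of the dense sequence in `V4`
      obtain ⟨j, hj⟩ : ∃ j, ((TopologicalSpace.denseSeq Q j : Q) : ℕ → ℝ) ∈ V4 := by
        have hd := TopologicalSpace.denseRange_denseSeq Q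
        have h5 : ((↑) : Q → (ℕ → ℝ)) ⁻¹' V4 ∈ 𝓝 (⟨x, hx⟩ : Q) :=
          continuous_subtype_val.continuousAt.preimage_mem_nhds hV4
        obtain ⟨_, h6, ⟨j, rfl⟩⟩ := mem_closure_iff_nhds.mp (hd ⟨x, hx⟩) _ h5
        exact ⟨j, h6⟩
      have h7 : ∀ᶠ n : ℕ in Filter.atTop, (1 / ((n : ℝ) + 1)) ∈ V3 :=
        (tendsto_one_div_add_atTop_nhds_zero_nat (𝕜 := ℝ)) hV3
      obtain ⟨n0, hn0⟩ := Filter.eventually_atTop.mp h7
      set k := Nat.pair j n0 with hk
      have hkn : n0 ≤ k := Nat.right_le_pair j n0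
      have hqk : q k ∈ V4 := by
        simp only [q, hk, Nat.unpair_pair]
        exact hj
      refine ⟨pt (1 / ((k : ℝ) + 1), q k, τ) (mem_At_level hτ), hV2 _ ?_, ?_⟩
      · exact hsub (mk_mem_prod (hn0 k hkn) hqk)
      · exact mat_eq_of_lev (k := k) rfl (lev_eq hg _)
    have : a ∈ closure {a : X | mat (g a) = mat a} := by
      rw [mem_closure_iff_nhds]
      intro V hV
      obtain ⟨b, h1, h2⟩ := hdense V hV
      exact ⟨b, h1, h2⟩
    exact hcl.closure_subset this
  · -- isolated fibres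
    have h1 : lev a = 1 / ((k : ℝ) + 1) := by rw [ha]; exact hk.symm
    exact mat_eq_of_lev h1 (lev_eq hg a)

/-! ### A common fixed point of finitely many elements -/

/-- Truncation to `[-1,1]`. -/
def cl (r : ℝ) : ℝ := max (-1) (min 1 r)

lemma cl_neg (r : ℝ) : cl (-r) = - cl r := by
  unfold cl
  rcases le_total r 1 with h1 | h1 <;> rcases le_total (-1) r with h2 | h2 <;>
    simp only [max_def, min_def] <;> split_ifs <;> linarith

lemma cl_mem (r : ℝ) : cl r ∈ Icc (-1 : ℝ) 1 :=
  ⟨le_max_left _ _, max_le (by norm_num) (min_le_left _ _)⟩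

lemma cl_eq {r : ℝ} (h : |r| ≤ 1) : cl r = r := by
  rw [abs_le] at h
  unfold cl
  rw [min_eq_right h.2, max_eq_right h.1]

lemma continuous_cl : Continuous cl := by
  unfold cl
  fun_prop

/-- Extension by zero after truncation. -/
def io {n : ℕ} (x : Fin (n + 1) → ℝ) : ℕ → ℝ := fun i => if h : i < n + 1 then cl (x ⟨i, h⟩) else 0

lemma io_mem {n : ℕ} (x : Fin (n + 1) → ℝ) : io x ∈ Q := by
  intro i _
  unfold io
  split_ifs with h
  · exact cl_mem _
  · exact ⟨by norm_num, by norm_num⟩

lemma io_neg {n : ℕ} (x : Fin (n + 1) → ℝ) : io (-x) = - io x := by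
  funext i
  rw [Pi.neg_apply]
  unfold io
  by_cases h : i < n + 1
  · simp only [h, dite_true, Pi.neg_apply, cl_neg]
  · simp only [h, dite_false, Pi.neg_apply, neg_zero]

lemma continuous_io {n : ℕ} : Continuous (io : (Fin (n + 1) → ℝ) → ℕ → ℝ) := by
  refine continuous_pi fun i => ?_
  unfold io
  by_cases h : i < n + 1
  · simp only [h, dite_true]
    exact continuous_cl.comp (continuous_apply _)
  · simp only [h, dite_false]
    exact continuous_const

/-- The point of the zero section over `x`. -/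
def zs (x : ℕ → ℝ) (hx : x ∈ Q) : X := pt (0, x, 0) (mem_At_zero hx (by norm_num))

lemma zs_neg {x y : ℕ → ℝ} (hx : x ∈ Q) (hy : y ∈ Q) (h : y = -x) : zs y hy = zs x hx := by
  subst h
  apply X_ext
  simp [zs, pt, Ph]

lemma continuous_zs {n : ℕ} :
    Continuous fun x : Fin (n + 1) → ℝ => zs (io x) (io_mem x) := by
  refine Continuous.subtype_mk ?_ _
  exact continuous_Ph.comp
    (continuous_const.prodMk (continuous_io.prodMk continuous_const))

lemma exists_common_fixed {n : ℕ} (g : Fin n → T X)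
    (hg : ∀ i, g i ∈ connectedComponent (1 : T X)) :
    ∃ (y : ℕ → ℝ) (hy : y ∈ Q), y ≠ 0 ∧ ∀ i, g i (zs y hy) = zs y hy := by
  classical
  let F : (Fin (n + 1) → ℝ) → (Fin n → ℝ) := fun x i =>
    ∑ j : Fin (n + 1), vec (g i (zs (io x) (io_mem x))) j * io x j
  have hF : Continuous F := by
    refine continuous_pi fun i => continuous_finsetSum _ fun j _ => ?_
    have h1 : Continuous fun a : X => g i a := (toC (g i)).continuous
    exact ((continuous_apply (j : ℕ)).comp (continuous_vec.comp (h1.comp continuous_zs))).mul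
      ((continuous_apply (j : ℕ)).comp continuous_io)
  have hodd : ∀ x, F (-x) = - F x := by
    intro x
    funext i
    have h1 : zs (io (-x)) (io_mem (-x)) = zs (io x) (io_mem x) := zs_neg _ _ (io_neg x)
    have h2 : ∀ j : ℕ, io (-x) j = - io x j := fun j => congrFun (io_neg x) j
    simp only [F, Pi.neg_apply]
    rw [h1]
    simp only [h2, mul_neg, Finset.sum_neg_distrib]
  obtain ⟨x, hxK, hx0⟩ := Pool.Agent.Helper325.BorsukUlam.borsuk_ulam n F hF hodd
  have hsum : ∑ i, |x i| = 1 := hxK
  have hle : ∀ i, |x i| ≤ 1 := by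
    intro i
    rw [← hsum]
    exact Finset.single_le_sum (f := fun i => |x i|) (fun i _ => abs_nonneg _) (Finset.mem_univ i)
  have hio : ∀ j : Fin (n + 1), io x j = x j := by
    intro j
    simp only [io, j.2, dite_true]
    exact cl_eq (hle j)
  have hsq : 0 < ∑ j : Fin (n + 1), io x j * io x j := by
    obtain ⟨j, hj⟩ : ∃ j, x j ≠ 0 := by
      by_contra hcon
      push Not at hcon
      simp [hcon] at hsum
    refine Finset.sum_pos' (fun j _ => mul_self_nonneg _) ⟨j, Finset.mem_univ _, ?_⟩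
    rw [hio]
    exact mul_self_pos.mpr hj
  refine ⟨io x, io_mem x, ?_, ?_⟩
  · intro h0
    simp [h0] at hsq
  · intro i
    set p := zs (io x) (io_mem x) with hp
    have h1 : mat (g i p) = mat p := mat_eq (hg i) p
    obtain ⟨τ, hτ, h2⟩ := fibre (g i p) (x := io x) (by rw [h1]; rfl)
    have h3 : ∑ j : Fin (n + 1), τ * io x j * io x j = 0 := by
      have := congrFun hx0 i
      simp only [F, Pi.zero_apply] at this
      rw [← hp, h2] at this
      exact this
    have h4 : τ * ∑ j : Fin (n + 1), io x j * io x j = 0 := by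
      rw [Finset.mul_sum, ← h3]
      exact Finset.sum_congr rfl fun j _ => by ring
    have h5 : τ = 0 := by
      rcases mul_eq_zero.mp h4 with h | h
      · exact h
      · exact absurd h hsq.ne'
    apply X_ext' (lev_eq (hg i) p) h1
    rw [h2, h5]
    rfl

/-! ### Arcs moving points of the zero section -/

/-- The fibre map. -/
def fm (c τ : ℝ) : ℝ := τ + c * (1 - τ ^ 2)

lemma fm_mem {c τ : ℝ} (hc : |c| ≤ 1 / 4) (hτ : τ ∈ Icc (-1 : ℝ) 1) : fm c τ ∈ Icc (-1 : ℝ) 1 := by
  obtain ⟨h1, h2⟩ := hτ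
  rw [abs_le] at hc
  obtain ⟨h3, h4⟩ := hc
  constructor <;> unfold fm <;> nlinarith [mul_nonneg (sub_nonneg.mpr h1) (sub_nonneg.mpr h2)]

lemma fm_inj {c τ τ' : ℝ} (hc : |c| ≤ 1 / 4) (hτ : τ ∈ Icc (-1 : ℝ) 1) (hτ' : τ' ∈ Icc (-1 : ℝ) 1)
    (h : fm c τ = fm c τ') : τ = τ' := by
  obtain ⟨h1, h2⟩ := hτ
  obtain ⟨h1', h2'⟩ := hτ'
  rw [abs_le] at hc
  have h3 : (τ - τ') * (1 - c * (τ + τ')) = 0 := by
    unfold fm at h
    linear_combination h
  rcases mul_eq_zero.mp h3 with h4 | h4
  · linarith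
  · exfalso
    nlinarith [abs_le.mpr hc]

lemma fm_surj {c y : ℝ} (hy : y ∈ Icc (-1 : ℝ) 1) : ∃ τ ∈ Icc (-1 : ℝ) 1, fm c τ = y := by
  have hcont : ContinuousOn (fm c) (Icc (-1) 1) := by
    unfold fm
    fun_prop
  have h1 : fm c (-1) = -1 := by unfold fm; ring
  have h2 : fm c 1 = 1 := by unfold fm; ring
  have := intermediate_value_Icc (by norm_num : (-1 : ℝ) ≤ 1) hcont
  rw [h1, h2] at this
  exact this hy

lemma abs_c {x : ℕ → ℝ} (hx : x ∈ Q) (j : ℕ) {t : ℝ} (ht : t ∈ Icc (0 : ℝ) 1) :
    |t / 4 * x j| ≤ 1 / 4 := by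
  have h1 : |x j| ≤ 1 := abs_le.mpr (hx j trivial)
  rw [abs_mul, abs_of_nonneg (by linarith [ht.1])]
  have := ht.2
  have := ht.1
  nlinarith [abs_nonneg (x j)]

/-- The flow in coordinates. -/
noncomputable def Hf (j : ℕ) (t : ℝ) (w : W) : W :=
  (w.1, w.2.1, fun i => w.2.2 i + t / 4 * (w.2.1 j i - w.2.2 j * w.2.2 i))

lemma Hf_Ph (j : ℕ) (t s : ℝ) (x : ℕ → ℝ) (τ : ℝ) :
    Hf j t (Ph (s, x, τ)) = Ph (s, x, fm (t / 4 * x j) τ) := by
  unfold Hf Ph fm
  refine Prod.ext rfl (Prod.ext rfl ?_)
  funext i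
  simp only
  ring

lemma fm_At {j : ℕ} {t s : ℝ} {x : ℕ → ℝ} {τ : ℝ} (ht : t ∈ Icc (0 : ℝ) 1) (h : (s, x, τ) ∈ At) :
    (s, x, fm (t / 4 * x j) τ) ∈ At :=
  ⟨h.1, h.2.1, fm_mem (abs_c h.2.1 j ht) h.2.2.1, h.2.2.2⟩

lemma Hf_mem (j : ℕ) {t : ℝ} (ht : t ∈ Icc (0 : ℝ) 1) (a : X) : Hf j t a.1 ∈ AS := by
  obtain ⟨s, x, τ, hA, rfl⟩ := exists_pt a
  exact ⟨_, fm_At ht hA, (Hf_Ph j t s x τ).symm⟩

/-- The flow on `X`. -/
noncomputable def Hx (j : ℕ) (t : Icc (0 : ℝ) 1) (a : X) : X := ⟨Hf j t a.1, Hf_mem j t.2 a⟩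

lemma Hx_pt (j : ℕ) (t : Icc (0 : ℝ) 1) {s : ℝ} {x : ℕ → ℝ} {τ : ℝ} (h : (s, x, τ) ∈ At) :
    Hx j t (pt (s, x, τ) h) = pt (s, x, fm (t / 4 * x j) τ) (fm_At t.2 h) :=
  X_ext (Hf_Ph j t s x τ)

lemma continuous_Hx (j : ℕ) : Continuous fun p : Icc (0 : ℝ) 1 × X => Hx j p.1 p.2 := by
  refine Continuous.subtype_mk ?_ _
  have h1 : Continuous fun p : Icc (0 : ℝ) 1 × X => p.2.1 := continuous_val.comp continuous_snd
  have h2 : Continuous fun p : Icc (0 : ℝ) 1 × X => (p.1 : ℝ) :=
    continuous_subtype_val.comp continuous_fst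
  unfold Hf
  refine (continuous_fst.comp h1).prodMk (((continuous_fst.comp (continuous_snd.comp h1))).prodMk
    (continuous_pi fun i => ?_))
  have h3 : ∀ i, Continuous fun p : Icc (0 : ℝ) 1 × X => (p.2.1 : W).2.2 i := fun i =>
    (continuous_apply i).comp (continuous_snd.comp (continuous_snd.comp h1))
  have h4 : ∀ i, Continuous fun p : Icc (0 : ℝ) 1 × X => (p.2.1 : W).2.1 j i := fun i =>
    (continuous_apply i).comp
      ((continuous_apply j).comp (continuous_fst.comp (continuous_snd.comp h1)))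
  exact (h3 i).add ((h2.div_const 4).mul ((h4 i).sub ((h3 j).mul (h3 i))))

lemma Hx_injective (j : ℕ) (t : Icc (0 : ℝ) 1) : Function.Injective (Hx j t) := by
  intro a b hab
  obtain ⟨s, x, τ, hA, rfl⟩ := exists_pt a
  have hmat : mat b = fun i j => x i * x j := by
    have : mat (Hx j t b) = mat (Hx j t (pt (s, x, τ) hA)) := by rw [hab]
    exact this
  have hlev : lev b = s := by
    have : lev (Hx j t b) = lev (Hx j t (pt (s, x, τ) hA)) := by rw [hab]
    exact this
  obtain ⟨τ', hτ', hvec⟩ := fibre b hmat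
  have hb : b.1 = Ph (s, x, τ') := by
    refine Prod.ext hlev (Prod.ext hmat hvec)
  have h1 : Ph (s, x, fm (t / 4 * x j) τ) = Ph (s, x, fm (t / 4 * x j) τ') := by
    have h2 : Hf j t (Ph (s, x, τ)) = Hf j t b.1 := congrArg Subtype.val hab
    rw [hb, Hf_Ph, Hf_Ph] at h2
    exact h2
  apply X_ext
  rw [hb]
  show Ph (s, x, τ) = Ph (s, x, τ')
  by_cases hx : ∃ i, x i ≠ 0
  · obtain ⟨i, hi⟩ := hx
    have h3 : fm (t / 4 * x j) τ * x i = fm (t / 4 * x j) τ' * x i :=
      congrFun (congrArg (fun w : W => w.2.2) h1) i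
    have h4 := mul_right_cancel₀ hi h3
    have h5 : τ = τ' := fm_inj (abs_c hA.2.1 j t.2) hA.2.2.1 hτ' h4
    rw [h5]
  · push Not at hx
    unfold Ph
    refine Prod.ext rfl (Prod.ext rfl ?_)
    funext i
    simp [hx]

lemma Hx_surjective (j : ℕ) (t : Icc (0 : ℝ) 1) : Function.Surjective (Hx j t) := by
  intro b
  obtain ⟨s, x, y, hA, rfl⟩ := exists_pt b
  obtain ⟨τ, hτ, h⟩ := fm_surj (c := t / 4 * x j) hA.2.2.1
  have hA' : (s, x, τ) ∈ At := ⟨hA.1, hA.2.1, hτ, hA.2.2.2⟩
  refine ⟨pt (s, x, τ) hA', ?_⟩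
  rw [Hx_pt]
  apply X_ext
  show Ph (s, x, fm (t / 4 * x j) τ) = Ph (s, x, y)
  rw [h]

lemma continuous_Hx_right (j : ℕ) (t : Icc (0 : ℝ) 1) : Continuous (Hx j t) :=
  (continuous_Hx j).comp (continuous_const.prodMk continuous_id)

/-- The flow as homeomorphisms of `X`. -/
noncomputable def Ht (j : ℕ) (t : Icc (0 : ℝ) 1) : T X :=
  (Continuous.homeoOfEquivCompactToT2
    (f := Equiv.ofBijective (Hx j t) ⟨Hx_injective j t, Hx_surjective j t⟩)
    (continuous_Hx_right j t) : X ≃ₜ X)

lemma Ht_apply (j : ℕ) (t : Icc (0 : ℝ) 1) (a : X) : Ht j t a = Hx j t a := rfl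

lemma continuous_Ht (j : ℕ) : Continuous (Ht j) := by
  refine continuous_induced_rng.mpr ?_
  have h : (toC ∘ Ht j) = fun t => (ContinuousMap.curry ⟨_, continuous_Hx j⟩) t := by
    funext t
    ext a
    rfl
  rw [h]
  exact (ContinuousMap.curry _).continuous

lemma Ht_zs (j : ℕ) (t : Icc (0 : ℝ) 1) {y : ℕ → ℝ} (hy : y ∈ Q) :
    vec (Ht j t (zs y hy)) = fun i => (t : ℝ) / 4 * y j * y i := by
  rw [Ht_apply]
  unfold zs
  rw [Hx_pt]
  funext i
  simp [pt, Ph, vec, fm]

lemma Ht_injective (j : ℕ) : Function.Injective (Ht j) := by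
  intro t t' h
  have hQ : (fun _ => 1 : ℕ → ℝ) ∈ Q := fun _ _ => by norm_num
  have h1 := congrFun (Ht_zs j t hQ) j
  have h2 := congrFun (Ht_zs j t' hQ) j
  rw [h] at h1
  rw [h1] at h2
  simp only [mul_one] at h2
  apply Subtype.ext
  linarith

lemma Ht_zero (j : ℕ) : Ht j 0 = 1 := by
  apply DFunLike.ext
  intro a
  rw [Ht_apply, one_apply]
  apply X_ext
  show Hf j ((0 : Icc (0 : ℝ) 1) : ℝ) a.1 = a.1
  unfold Hf
  refine Prod.ext rfl (Prod.ext rfl ?_)
  funext i
  simp

lemma isEmbedding_Ht (j : ℕ) : IsEmbedding (Ht j) :=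
  ((continuous_Ht j).isClosedEmbedding (Ht_injective j)).isEmbedding

lemma Ht_mem (j : ℕ) : Ht j 1 ∈ arcComponent (T X) :=
  Or.inr ⟨Ht j, isEmbedding_Ht j, Ht_zero j, rfl⟩

/-! ### The result -/

/-- The arc component lies in the connected component. -/
lemma arcComponent_subset {G : Type} [Group G] [TopologicalSpace G] :
    arcComponent G ⊆ connectedComponent (1 : G) := by
  rintro g (rfl | ⟨γ, hγ, h0, h1⟩)
  · exact mem_connectedComponent
  · have h2 : IsPreconnected (range γ) := isPreconnected_range hγ.continuous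
    exact h2.subset_connectedComponent ⟨0, h0⟩ ⟨1, h1⟩

/-- Elements in the closure of the generated subgroup fix every common fixed point. -/
lemma fix_of_mem_closure {s : Set (T X)} {p : X} (hs : ∀ g ∈ s, g p = p) {h : T X}
    (hh : h ∈ closure (Subgroup.closure s : Set (T X))) : h p = p := by
  have h1 : ∀ g ∈ Subgroup.closure s, g p = p := by
    intro g hg
    induction hg using Subgroup.closure_induction with
    | mem g hg => exact hs g hg
    | one => rfl
    | mul a b _ _ ha hb => rw [mul_apply, hb, ha]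
    | inv a _ ha =>
      have h2 : a⁻¹ (a p) = p := by rw [← mul_apply, inv_mul_cancel, one_apply]
      rw [ha] at h2
      exact h2
  have h2 : IsClosed {g : T X | g p = p} := isClosed_eq (continuous_eval p) continuous_const
  exact closure_minimal (fun g hg => h1 g hg) h2 hh

/-- No finite set of elements of the identity component of `T(X)` generates a subgroup whose
closure contains the arc component. -/
lemma main (s : Finset (T X)) (hs : (s : Set (T X)) ⊆ connectedComponent (1 : T X)) :
    ¬ arcComponent (T X) ⊆ closure (Subgroup.closure (s : Set (T X)) : Set (T X)) := by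
  intro hsub
  let g : Fin s.card → T X := fun i => (s.equivFin.symm i : s)
  have hg : ∀ i, g i ∈ connectedComponent (1 : T X) := fun i => hs (s.equivFin.symm i).2
  obtain ⟨y, hy, hy0, hfix⟩ := exists_common_fixed g hg
  have hfix' : ∀ a ∈ (s : Set (T X)), a (zs y hy) = zs y hy := by
    intro a ha
    have := hfix (s.equivFin ⟨a, ha⟩)
    simpa [g] using this
  obtain ⟨j, hj⟩ : ∃ j, y j ≠ 0 := by
    by_contra hcon
    push Not at hcon
    exact hy0 (funext hcon)
  have h1 := fix_of_mem_closure hfix' (hsub (Ht_mem j))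
  have h2 := congrFun (Ht_zs j 1 hy) j
  rw [h1] at h2
  have h3 : vec (zs y hy) j = 0 := by simp [zs, pt, Ph, vec]
  rw [h3] at h2
  have h4 : 0 < y j * y j := mul_self_pos.mpr hj
  simp only [Set.Icc.coe_one] at h2
  linarith

/-- **Main theorem.**  There is a compact metric space `A` such that the arc component of the
identity in the group `T(A)` of all homeomorphisms of `A`, with the topology of uniform
convergence, has no finite basis; nor has the connected component of the identity. -/
theorem result : ∃ (A : Type) (_ : MetricSpace A) (_ : CompactSpace A),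
    ¬ HasFiniteBasis (arcComponent (T A)) ∧
    ¬ HasFiniteBasis (connectedComponent (1 : T A)) := by
  refine ⟨X, inferInstance, inferInstance, ?_, ?_⟩
  · rintro ⟨s, h1, h2⟩
    exact main s (h1.trans arcComponent_subset) h2
  · rintro ⟨s, h1, h2⟩
    exact main s h1 (arcComponent_subset.trans h2)

end Pool.Agent.Results.MP_f4f44f_al.NoFiniteBasis
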